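import Mathlib
import Pool.Agent.R125.RsJ

/-!
# MP_fa909a: long monochromatic progressions in the Rudin-Shapiro sequence, differences below `2^k`
-/

namespace Pool.Agent.Results.MP_fa909a_co.MaxBelow

open R125S

/-- the Rudin-Shapiro sequence in `0/1` form -/
def r (n : ℕ) : ℕ := e11 n % 2

/-- `A_r(n,d)`: number of terms of the longest monochromatic progression of difference `d`
starting at `n` -/
noncomputable def An (n d : ℕ) : ℕ∞ :=
  ⨆ l ∈ {l : ℕ | 1 ≤ l ∧ ∀ i < l, r (n + i * d) = r n}, (l : ℕ∞)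

/-- `A_r(d)` -/
noncomputable def A (d : ℕ) : ℕ∞ := ⨆ n, An n d

theorem mono_iff (n d l : ℕ) : (∀ i < l, r (n + i * d) = r n) ↔ (∀ i < l, Rs (n + i * d) = Rs n) := by
  constructor
  · intro h i hi; exact (Rs_iff _ _).mp (h i hi)
  · intro h i hi; exact (Rs_iff _ _).mpr (h i hi)

theorem A_le (d B : ℕ) (h : ∀ n L, (∀ l < L, Rs (n + l * d) = Rs n) → L ≤ B) :
    A d ≤ (B : ℕ∞) := by
  unfold A An
  apply iSup_le
  intro n
  apply iSup₂_le
  intro l hl
  exact_mod_cast h n l ((mono_iff n d l).mp hl.2)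

theorem le_A (d B n : ℕ) (hB : 1 ≤ B) (h : ∀ l < B, Rs (n + l * d) = Rs n) :
    (B : ℕ∞) ≤ A d := by
  unfold A
  refine le_trans ?_ (le_iSup _ n)
  unfold An
  refine le_iSup₂_of_le B ?_ le_rfl
  refine ⟨hB, ?_⟩
  rw [mono_iff]
  exact h

theorem result : ∀ k : ℕ, 5 ≤ k →
    (∀ d : ℕ, 1 ≤ d → d ≤ 2 ^ k - 2 → A d ≤ ((2 ^ (k - 1) : ℕ) : ℕ∞)) ∧
    (Even k → A (2 ^ k - 1) = ((2 ^ (k - 1) + 1 : ℕ) : ℕ∞)) ∧
    (Odd k → A (2 ^ k - 1) = ((2 ^ (k - 1) + 3 : ℕ) : ℕ∞)) := by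
  intro k hk
  refine ⟨?_, ?_, ?_⟩
  · intro d hd hdk
    apply A_le
    intro n L hL
    exact allk d hd n L hL k hk hdk
  · intro he
    apply le_antisymm
    · apply A_le
      intro n L hL
      exact (main_ones k n L hk hL).2 (Nat.even_iff.mp he)
    · obtain ⟨n, hn⟩ := (ones_exists k hk).2 (Nat.even_iff.mp he)
      exact le_A _ _ n (Nat.succ_le_succ (Nat.zero_le _)) hn
  · intro ho
    apply le_antisymm
    · apply A_le
      intro n L hL
      exact (main_ones k n L hk hL).1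
    · obtain ⟨n, hn⟩ := (ones_exists k hk).1 (Nat.odd_iff.mp ho)
      exact le_A _ _ n (Nat.succ_le_succ (Nat.zero_le _)) hn

end Pool.Agent.Results.MP_fa909a_co.MaxBelow
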